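import Pool.Agent.Run7.h651.RB.Base

/-!
# Piece OPN: the domain of a rational function is open
-/

set_option autoImplicit false
set_option linter.unusedVariables false

namespace Pool.Agent.Run7.h651.RB

open IsLocalRing Pool.Agent.W418.LU2 Pool.Agent.H918R2.Quad Pool.Agent.Run7.h275.RL
open Pool.Agent.Run7.h275.RB

theorem t_OPN : S_OPN := by
  intro O F _ _ _ M hM V hV Q hQ s hs
  obtain ⟨w, hw, hw0, hwV, rfl⟩ := hQ
  have hmx : Mx M V w := ⟨hw, hw0, hwV⟩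
  obtain ⟨x, hx, y, hy, hy0, hyV, rfl⟩ := hs
  obtain ⟨k₁, h₁⟩ := chart_pow_mem hw hw0 hx
  obtain ⟨k₂, h₂⟩ := chart_pow_mem hw hw0 hy
  set j := max k₁ k₂ with hj
  have hp : x * w ^ j ∈ M ^ j := h₁ j (le_max_left _ _)
  have hq : y * w ^ j ∈ M ^ j := h₂ j (le_max_right _ _)
  have hwj0 : w ^ j ≠ 0 := pow_ne_zero _ hw0
  have hq0 : y * w ^ j ≠ 0 := mul_ne_zero hy0 hwj0
  have ha : w * (y * w ^ j) ∈ M ^ (j + 1) := by
    rw [pow_succ' M]
    exact Submodule.mul_mem_mul hw hq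
  have hyV' : y ∈ V := chart_le_V hV hwV hy
  have hvy : V.valuation y = 1 := by
    apply le_antisymm ((V.valuation_le_one_iff y).2 hyV')
    have h3 := (V.valuation_le_one_iff y⁻¹).2 hyV
    rw [map_inv₀] at h3
    exact (inv_le_one₀ (val_pos hy0)).1 h3
  refine ⟨j + 1, w * (y * w ^ j), ha, ?_, ?_⟩
  · rw [hmx.not_vn_iff hV ha, map_mul, map_mul, hvy, one_mul, map_pow, pow_succ']
  · intro T hT haT Q' hQ'
    obtain ⟨g, hg, hg0, hgT, rfl⟩ := hQ'
    have hgx : Mx M T g := ⟨hg, hg0, hgT⟩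
    rw [hgx.not_vn_iff hT ha, map_mul, pow_succ'] at haT
    have hsp := (mul_eq_aux (hgx.le hw) (hgx.pow_le hT hq) hgx.val_pos
      (pow_pos hgx.val_pos _)).1 haT
    have hgj0 : g ^ j ≠ 0 := pow_ne_zero _ hg0
    refine ⟨(x * w ^ j) / g ^ j, pow_div_mem hg0 j _ hp, (y * w ^ j) / g ^ j,
      pow_div_mem hg0 j _ hq, div_ne_zero hq0 hgj0, ?_, ?_⟩
    · change ((y * w ^ j) / g ^ j)⁻¹ ∈ T
      rw [inv_div, div_mem_iff hq0, map_pow, hsp.2]
    · field_simp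

end Pool.Agent.Run7.h651.RB
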