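import Pool.Agent.Run7.h651.RB.Base

/-!
# Piece PRI: the ideal of the closure in a chart
-/

set_option autoImplicit false
set_option linter.unusedVariables false

namespace Pool.Agent.Run7.h651.RB

open IsLocalRing Pool.Agent.W418.LU2 Pool.Agent.H918R2.Quad Pool.Agent.Run7.h275.RL
open Pool.Agent.Run7.h275.RB

variable {O F : Type} [CommRing O] [Field F] [Algebra O F]

lemma mem_IB {B : Subring F} {E : Set (ValuationSubring F)} {b : B} :
    b ∈ IB B E ↔ ∀ T ∈ E, B ≤ T.toSubring → T.valuation (b : F) < 1 := Iff.rfl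

lemma Dn.exists {M : Submodule O F} {E' E : Set (ValuationSubring F)} (hD : Dn M E' E) {k : ℕ}
    {a : F} (ha : a ∈ M ^ k) (h : ∃ T ∈ E, ¬ Vn M k T a) : ∃ T ∈ E', ¬ Vn M k T a := by
  by_contra h'
  push Not at h'
  obtain ⟨T, hT, haT⟩ := h
  exact haT (hD.2 k a ha h' T hT)

lemma Irr.exists {M : Submodule O F} (hM : Md M) {E : Set (ValuationSubring F)}
    (hE : ∀ V ∈ E, Cn O V) (hI : Irr M E) {j k : ℕ} {a b : F} (ha : a ∈ M ^ j) (hb : b ∈ M ^ k)
    (h : ∃ T ∈ E, ¬ Vn M j T a) (h' : ∃ T ∈ E, ¬ Vn M k T b) :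
    ∃ T ∈ E, ¬ Vn M (j + k) T (a * b) := by
  by_contra hcon
  push Not at hcon
  have h1 : ∀ T ∈ E, Vn M j T a ∨ Vn M k T b := by
    intro T hT
    by_contra h2
    rw [not_or] at h2
    exact (not_vn_mul hM (hE T hT) ha hb).2 h2 (hcon T hT)
  rcases hI.2 j a ha k b hb h1 with h2 | h2
  · obtain ⟨T, hT, hn⟩ := h
    exact hn (h2 T hT)
  · obtain ⟨T, hT, hn⟩ := h'
    exact hn (h2 T hT)

theorem t_PRI : S_PRI := by
  intro hO O F _ _ _ M hM E' E hE hI hD B hB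
  have key : ∀ t : B, t ∉ IB B E' → ∃ k, ∃ a ∈ M ^ k, (∃ T ∈ E, ¬ Vn M k T a) ∧
      ∀ T ∈ E', ¬ Vn M k T a → ¬ T.valuation (t : F) < 1 := by
    intro t ht
    rw [mem_IB] at ht
    push Not at ht
    obtain ⟨T₀, hT₀, hBT, hval⟩ := ht
    have hCT := hE T₀ (hD.1 hT₀)
    have ht0 : (t : F) ≠ 0 := by
      intro h0
      rw [h0, map_zero] at hval
      exact absurd hval (not_le.2 zero_lt_one)
    have htinv : (t : F)⁻¹ ∈ T₀ := by
      rw [← T₀.valuation_le_one_iff, map_inv₀]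
      exact (inv_le_one₀ (val_pos ht0)).2 hval
    have hmem : (t : F)⁻¹ ∈ lo T₀.toSubring B :=
      inv_mem_lo hBT (le_lo T₀.toSubring B t.2) ht0 htinv
    obtain ⟨k, a, ha, haT, hall⟩ := hO O F M hM T₀ hCT _ (hB T₀ hT₀).2 _ hmem
    refine ⟨k, a, ha, ⟨T₀, hD.1 hT₀, haT⟩, ?_⟩
    intro T hT hna hlt
    have h1 := hall T (hE T (hD.1 hT)) hna _ (hB T hT).2
    have h2 : (t : F)⁻¹ ∈ T := lo_le (hB T hT).1 h1
    exact (val_lt_iff ht0).1 hlt h2
  have hne : ∃ T, T ∈ E' := by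
    obtain ⟨V, hV⟩ := hI.1
    obtain ⟨w, hw⟩ := exists_mx hM (hE V hV)
    have hw1 : w ∈ M ^ 1 := by rw [pow_one]; exact hw.1
    obtain ⟨T, hT, -⟩ := Dn.exists hD hw1 ⟨V, hV, by
      rw [hw.vn_iff, pow_one]; exact lt_irrefl _⟩
    exact ⟨T, hT⟩
  refine ⟨?_, ?_, key⟩
  · refine ⟨?_, ?_⟩
    · intro htop
      obtain ⟨T, hT⟩ := hne
      have h1 : (1 : B) ∈ IB B E' := htop ▸ Submodule.mem_top
      have h2 := mem_IB.1 h1 T hT (hB T hT).1
      rw [OneMemClass.coe_one, map_one] at h2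
      exact lt_irrefl _ h2
    · intro x y hxy
      by_contra hcon
      rw [not_or] at hcon
      obtain ⟨j, a, ha, hea, hA⟩ := key x hcon.1
      obtain ⟨k, b, hb, heb, hBb⟩ := key y hcon.2
      have hab : a * b ∈ M ^ (j + k) := by
        rw [pow_add]
        exact Submodule.mul_mem_mul ha hb
      obtain ⟨T, hT, hn⟩ := Dn.exists hD hab (Irr.exists hM hE hI ha hb hea heb)
      obtain ⟨h1, h2⟩ := (not_vn_mul hM (hE T (hD.1 hT)) ha hb).1 hn
      have h3 := hA T hT h1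
      have h4 := hBb T hT h2
      have h5 := mem_IB.1 hxy T hT (hB T hT).1
      rw [not_lt] at h3 h4
      have h6 : (1 : T.ValueGroup) ≤ T.valuation ((x * y : B) : F) := by
        rw [Subring.coe_mul, map_mul]
        exact one_le_mul_of_one_le_of_one_le h3 h4
      exact absurd h5 (not_lt.2 h6)
  · intro j g hg heg
    apply le_antisymm
    · intro t ht
      by_contra hcon
      obtain ⟨k, a, ha, hea, hA⟩ := key t hcon
      have hag : a * g ∈ M ^ (k + j) := by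
        rw [pow_add]
        exact Submodule.mul_mem_mul ha hg
      obtain ⟨T, hT, hn⟩ := Dn.exists hD hag (Irr.exists hM hE hI ha hg hea heg)
      obtain ⟨h1, h2⟩ := (not_vn_mul hM (hE T (hD.1 hT)) ha hg).1 hn
      exact hA T hT h1 (mem_IB.1 ht T ⟨hT, h2⟩ (hB T hT).1)
    · intro t ht
      rw [mem_IB] at ht ⊢
      exact fun T hT => ht T hT.1

end Pool.Agent.Run7.h651.RB
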