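import Pool.Agent.Run7.h651.RB.Base

/-!
# Piece TRN: transfer of density
-/

set_option autoImplicit false
set_option linter.unusedVariables false

namespace Pool.Agent.Run7.h651.RB

open IsLocalRing Pool.Agent.W418.LU2 Pool.Agent.H918R2.Quad Pool.Agent.Run7.h275.RL
open Pool.Agent.Run7.h275.RB

variable {O F : Type} [CommRing O] [Field F] [Algebra O F]

lemma one_mem_pow_zero (M : Submodule O F) : (1 : F) ∈ M ^ 0 := by
  rw [pow_zero]
  exact Submodule.one_le.1 le_rfl

/-- Finitely many sections have a common domain. -/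
lemma opn_finset (hO : S_OPN) {M : Submodule O F} (hM : Md M) {V : ValuationSubring F}
    (hV : Cn O V) {Q : Subring F} (hQ : LR V M Q) (S : Finset F) (hS : ∀ s ∈ S, s ∈ Q) :
    ∃ k, ∃ a ∈ M ^ k, ¬ Vn M k V a ∧ ∀ T : ValuationSubring F, Cn O T → ¬ Vn M k T a →
      ∀ Q' : Subring F, LR T M Q' → ∀ s ∈ S, s ∈ Q' := by
  classical
  induction S using Finset.induction_on with
  | empty =>
    refine ⟨0, 1, one_mem_pow_zero M, ?_, ?_⟩
    · rintro ⟨w, -, h⟩
      rw [pow_zero, map_one] at h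
      exact lt_irrefl _ h
    · intro T _ _ Q' _ s hs
      exact absurd hs (Finset.notMem_empty _)
  | insert s S hsS ih =>
    obtain ⟨k, a, ha, haV, hT⟩ := ih (fun s hs => hS s (Finset.mem_insert_of_mem hs))
    obtain ⟨k', a', ha', haV', hT'⟩ := hO O F M hM V hV Q hQ s (hS s (Finset.mem_insert_self _ _))
    refine ⟨k + k', a * a', ?_, (not_vn_mul hM hV ha ha').2 ⟨haV, haV'⟩, ?_⟩
    · rw [pow_add]
      exact Submodule.mul_mem_mul ha ha'
    · intro T hCT haT Q' hQ' t ht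
      obtain ⟨h1, h2⟩ := (not_vn_mul hM hCT ha ha').1 haT
      rcases Finset.mem_insert.1 ht with rfl | ht
      · exact hT' T hCT h2 Q' hQ'
      · exact hT T hCT h1 Q' hQ' t ht

theorem t_TRN : S_TRN := by
  classical
  intro hO O F _ _ _ M M' hM hM' E' E hE hLR hD
  refine ⟨hD.1, ?_⟩
  intro j a' ha' hvan V hVE
  by_contra hVn
  have hV := hE V hVE
  obtain ⟨Q, hQ⟩ := exists_LR (V := V) hV hM.1 hM.2
  have hQ' := hLR V hVE Q hQ
  obtain ⟨w, hw, hw0, hwV, hQe⟩ := hQ'
  have hmx : Mx M' V w := ⟨hw, hw0, hwV⟩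
  obtain ⟨G, hG⟩ := hM'.1
  have hchQ : (chart O M' w).toSubring ≤ Q := by rw [← hQe]; exact le_lo _ _
  have ha'0 : a' ≠ 0 := ne_zero_of_not_vn hM' hVn
  have hwj0 : w ^ j ≠ 0 := pow_ne_zero _ hw0
  have hval := (hmx.not_vn_iff hV ha').1 hVn
  have hinv : w ^ j / a' ∈ Q := by
    have h1 : a' / w ^ j ∈ (chart O M' w).toSubring := pow_div_mem hw0 j _ ha'
    have h2 := inv_mem_lo (chart_le_V hV hwV) (le_lo V.toSubring _ h1) (div_ne_zero ha'0 hwj0) (by
      change (a' / w ^ j)⁻¹ ∈ V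
      rw [inv_div, div_mem_iff ha'0, map_pow, hval])
    rw [inv_div, hQe] at h2
    exact h2
  obtain ⟨k, a, ha, haV, hT⟩ := opn_finset hO hM hV hQ
    (insert (w ^ j / a') (G.image (fun m => m / w))) (by
      intro s hs
      rcases Finset.mem_insert.1 hs with rfl | hs
      · exact hinv
      · obtain ⟨m, hm, rfl⟩ := Finset.mem_image.1 hs
        exact hchQ (Algebra.subset_adjoin ⟨m, hG ▸ Submodule.subset_span hm, rfl⟩))
  have hex : ∃ T ∈ E', ¬ Vn M k T a := by
    by_contra h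
    push Not at h
    exact haV (hD.2 k a ha h V hVE)
  obtain ⟨T, hTE, haT⟩ := hex
  have hCT := hE T (hD.1 hTE)
  obtain ⟨Q'', hQ''⟩ := exists_LR (V := T) hCT hM.1 hM.2
  have hsec := hT T hCT haT Q'' hQ''
  have hle : Q'' ≤ T.toSubring := (LR.facts hCT hQ'').1
  have hwT : ∀ m ∈ M', m / w ∈ T := by
    intro m hm
    rw [← hG] at hm
    induction hm using Submodule.span_induction with
    | mem m hm => exact hle (hsec _ (Finset.mem_insert_of_mem (Finset.mem_image_of_mem _ hm)))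
    | zero => rw [zero_div]; exact T.zero_mem
    | add a b _ _ ha hb => rw [add_div]; exact T.add_mem _ _ ha hb
    | smul c a _ ha =>
      rw [Algebra.smul_def, mul_div_assoc]
      exact T.mul_mem _ _ (hCT c) ha
  have hmT : Mx M' T w := ⟨hw, hw0, hwT⟩
  have h1 : w ^ j / a' ∈ T := hle (hsec _ (Finset.mem_insert_self _ _))
  rw [div_mem_iff ha'0, map_pow] at h1
  exact absurd (hmT.vn_iff.1 (hvan T hTE)) (not_lt.2 h1)

end Pool.Agent.Run7.h651.RB
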