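import Pool.Agent.Run7.h275.RB0

/-!
# Homogeneous elements vanishing at the centre of a valuation ring
-/

set_option autoImplicit false
set_option linter.unusedVariables false

namespace Pool.Agent.Run7.h651.RB

open IsLocalRing Pool.Agent.W418.LU2 Pool.Agent.H918R2.Quad Pool.Agent.Run7.h275.RL
open Pool.Agent.Run7.h275.RB

variable {O F : Type} [CommRing O] [Field F] [Algebra O F]

/-- `w` is a nonzero element of `M` of maximal value. -/
def Mx (M : Submodule O F) (V : ValuationSubring F) (w : F) : Prop :=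
  w ∈ M ∧ w ≠ 0 ∧ ∀ m ∈ M, m / w ∈ V

lemma exists_mx {M : Submodule O F} (hM : Md M) {V : ValuationSubring F} (hV : Cn O V) :
    ∃ w, Mx M V w := by
  obtain ⟨g, hg, hg0⟩ := hM.2
  obtain ⟨j, hj, hj0, hjV⟩ := exists_gen_max (W := V) hV hM.1 hg hg0
  exact ⟨j, hj, hj0, hjV⟩

lemma val_pos {V : ValuationSubring F} {x : F} (hx : x ≠ 0) : 0 < V.valuation x :=
  (Valuation.pos_iff _).2 hx

lemma Mx.val_pos {M : Submodule O F} {V : ValuationSubring F} {w : F} (h : Mx M V w) :
    0 < V.valuation w := (Valuation.pos_iff _).2 h.2.1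

lemma div_mem_iff {V : ValuationSubring F} {x y : F} (hy : y ≠ 0) :
    x / y ∈ V ↔ V.valuation x ≤ V.valuation y := by
  rw [← V.valuation_le_one_iff, map_div₀]
  exact div_le_one₀ (val_pos hy)

lemma Mx.le {M : Submodule O F} {V : ValuationSubring F} {w : F} (h : Mx M V w) {m : F}
    (hm : m ∈ M) : V.valuation m ≤ V.valuation w :=
  (div_mem_iff h.2.1).1 (h.2.2 m hm)

lemma Mx.pow_le {M : Submodule O F} {V : ValuationSubring F} (hV : Cn O V) {w : F} (h : Mx M V w)
    {k : ℕ} {c : F} (hc : c ∈ M ^ k) : V.valuation c ≤ V.valuation w ^ k := by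
  rw [← map_pow, ← div_mem_iff (pow_ne_zero _ h.2.1)]
  exact chart_le_V hV h.2.2 (pow_div_mem h.2.1 k c hc)

lemma Mx.vn_iff {M : Submodule O F} {V : ValuationSubring F} {w : F} (h : Mx M V w)
    {k : ℕ} {c : F} : Vn M k V c ↔ V.valuation c < V.valuation w ^ k := by
  constructor
  · rintro ⟨w', hw', hc⟩
    exact hc.trans_le (pow_le_pow_left₀ zero_le (h.le hw') k)
  · intro hc
    exact ⟨w, h.1, hc⟩

lemma Mx.not_vn_iff {M : Submodule O F} {V : ValuationSubring F} (hV : Cn O V) {w : F}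
    (h : Mx M V w) {k : ℕ} {c : F} (hc : c ∈ M ^ k) :
    ¬ Vn M k V c ↔ V.valuation c = V.valuation w ^ k := by
  rw [h.vn_iff, not_lt]
  exact ⟨fun h' => le_antisymm (h.pow_le hV hc) h', fun h' => h'.ge⟩

lemma mul_eq_aux {V : ValuationSubring F} {a b c d : V.ValueGroup} (hac : a ≤ c) (hbd : b ≤ d)
    (hc : 0 < c) (hd : 0 < d) : a * b = c * d ↔ a = c ∧ b = d := by
  constructor
  · intro h
    constructor
    · refine le_antisymm hac ?_
      by_contra hlt
      rw [not_le] at hlt
      have h1 : a * b < c * d := by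
        calc a * b ≤ a * d := mul_le_mul_right hbd a
          _ < c * d := by
            have := mul_lt_mul_of_pos_right hlt hd
            exact this
      exact absurd h h1.ne
    · refine le_antisymm hbd ?_
      by_contra hlt
      rw [not_le] at hlt
      have h1 : a * b < c * d := by
        calc a * b ≤ c * b := mul_le_mul_left hac b
          _ < c * d := by
            have := mul_lt_mul_of_pos_left hlt hc
            exact this
      exact absurd h h1.ne
  · rintro ⟨rfl, rfl⟩
    rfl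

lemma not_vn_mul {M : Submodule O F} (hM : Md M) {V : ValuationSubring F} (hV : Cn O V)
    {j k : ℕ} {a b : F} (ha : a ∈ M ^ j) (hb : b ∈ M ^ k) :
    ¬ Vn M (j + k) V (a * b) ↔ ¬ Vn M j V a ∧ ¬ Vn M k V b := by
  obtain ⟨w, hw⟩ := exists_mx hM hV
  have hab : a * b ∈ M ^ (j + k) := by
    rw [pow_add]
    exact Submodule.mul_mem_mul ha hb
  rw [hw.not_vn_iff hV hab, hw.not_vn_iff hV ha, hw.not_vn_iff hV hb, map_mul, pow_add]
  exact mul_eq_aux (hw.pow_le hV ha) (hw.pow_le hV hb) (pow_pos hw.val_pos _)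
    (pow_pos hw.val_pos _)

lemma ne_zero_of_not_vn {M : Submodule O F} (hM : Md M) {k : ℕ} {V : ValuationSubring F} {c : F}
    (h : ¬ Vn M k V c) : c ≠ 0 := by
  rintro rfl
  obtain ⟨g, hg, hg0⟩ := hM.2
  exact h ⟨g, hg, by rw [map_zero]; exact pow_pos (val_pos hg0) _⟩

end Pool.Agent.Run7.h651.RB
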